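import Pool.Agent.TH4.FZ.LimR

/-!
# MP_f5d5f4_nt: for every fixed `a ≠ 0`, 100% of the curves `y² = x³ + ax + t` have no congruence
with smaller or slightly larger curves

Let `a ≠ 0` be an integer and `0 < δ < 1/11`.  For 100% of the integers `t` no elliptic curve `E'` over
`ℚ` of height at most `H(E_t)^(1+δ)`, which is not a quadratic twist of `E_t : y² = x³ + ax + t`, has
`E'[n]` isomorphic to `E_t[n]` for any `n ≥ 2`.  So the statement of the file `EveryLevel` for the
family of all elliptic curves (two parameters `A`, `B`) holds on every line `A = a ≠ 0` separately;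
these lines have density zero in it.  (For `a = 0` no prime `q ≥ 5` divides the discriminant exactly
once, and the method says nothing.)

Proof.  Let `q ≥ 5` be a prime which divides `D = 4a³ + 27t²` exactly once.  By the two ramification
theorems of the libraries `W275/FM` (for `q ∤ n`) and `W275/FML` (for `q ∣ n`), `q` divides `D'`.  For
all but a proportion `ε` of the `t` the product `P` of these `q` is at least `|D|/C` (sieve for square
divisors of a quadratic polynomial).  So `D = kP` and `D' = mP` with `|k| ≤ C`, and `|m|` is at most a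
constant times `H(E_t)^δ`.  For given `k, m, A'` the relation `k D' = m D` is a Pell equation
`(kB')² - km t² = N`, which has few solutions if `N ≠ 0`, and `N = 0` only for twists.
-/

set_option autoImplicit false

open Filter Topology
open scoped Classical

namespace Pool.Agent.Results.MP_f5d5f4_nt.EveryFibre

/-- The curve `y² = x³ + Ax + B` over `ℚ`. -/
def curve (A B : ℤ) : WeierstrassCurve ℚ := ⟨0, 0, 0, A, B⟩

/-- The group of its points over the algebraic closure of `ℚ`. -/
abbrev Points (A B : ℤ) : Type := ((curve A B).baseChange (AlgebraicClosure ℚ)).toAffine.Point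

/-- The action of an automorphism `σ` of the algebraic closure on the points. -/
noncomputable def galois (A B : ℤ) (σ : AlgebraicClosure ℚ ≃ₐ[ℚ] AlgebraicClosure ℚ) :
    Points A B →+ Points A B :=
  WeierstrassCurve.Affine.Point.map
    (σ : AlgebraicClosure ℚ →ₐ[ℚ] AlgebraicClosure ℚ)

/-- The `n`-torsion of `y² = x³ + Ax + B` and that of `y² = x³ + A'x + B'` are isomorphic as Galois
modules: some map between the groups of points restricts to a bijective additive map of the
`n`-torsion which commutes with the Galois group. -/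
def Congruent (n : ℕ) (A B A' B' : ℤ) : Prop :=
  ∃ f : Points A B → Points A' B', (∀ P Q, n • P = 0 → n • Q = 0 → f (P + Q) = f P + f Q) ∧
    Set.BijOn f {P | n • P = 0} {Q | n • Q = 0} ∧
    ∀ (σ : AlgebraicClosure ℚ ≃ₐ[ℚ] AlgebraicClosure ℚ) (P : Points A B), n • P = 0 →
      f (galois A B σ P) = galois A' B' σ (f P)

/-- The discriminant, up to the factor `-16`. -/
def disc (A B : ℤ) : ℤ := 4 * A ^ 3 + 27 * B ^ 2

/-- The height of `y² = x³ + Ax + B`. -/
def height (A B : ℤ) : ℤ := max (4 * |A| ^ 3) (27 * B ^ 2)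

/-- `y² = x³ + A'x + B'` is a quadratic twist of `y² = x³ + Ax + B` (or isomorphic to it) over `ℚ`. -/
def IsTwist (A B A' B' : ℤ) : Prop :=
  ∃ δ : ℚ, δ ≠ 0 ∧ (A' : ℚ) = δ ^ 2 * A ∧ (B' : ℚ) = δ ^ 3 * B

/-- `E : y² = x³ + Ax + B` has no congruence, modulo any `n ≥ 2`, with a curve `E'` of height at most
`H(E)^(1+δ)`, except twists. -/
def NoCompanion (δ : ℝ) (A B : ℤ) : Prop :=
  ∀ A' B' : ℤ, disc A' B' ≠ 0 → ¬ IsTwist A B A' B' →
    (height A' B' : ℝ) ≤ (height A B : ℝ) ^ (1 + δ) → ∀ n : ℕ, 2 ≤ n → ¬ Congruent n A B A' B'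

/-- **Frey-Mazur for 100% of the curves `y² = x³ + ax + t`, for every `a ≠ 0`.**  Let `a ≠ 0` be an
integer and `0 < δ < 1/11`.  The proportion of the integers `|t| ≤ T` for which `y² = x³ + ax + t` is an
elliptic curve and `NoCompanion δ a t` holds tends to `1` as `T → ∞`. -/
theorem result (a : ℤ) (ha : a ≠ 0) (δ : ℝ) (h₀ : 0 < δ) (h : 11 * δ < 1) :
    Tendsto (fun T : ℕ =>
      (({t | |t| ≤ (T : ℤ) ∧ disc a t ≠ 0 ∧ NoCompanion δ a t} : Set ℤ).ncard : ℝ) /
      (({t | |t| ≤ (T : ℤ)} : Set ℤ).ncard : ℝ)) atTop (𝓝 1) := by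
  refine (Pool.Agent.TH4.FZ.lim_rare
    (fun ε hε => Pool.Agent.TH4.FZ.fixA a ha δ h₀ h ε hε)).congr fun T => ?_
  congr 2
  congr 1
  ext t
  refine and_congr_right fun _ => ?_
  exact not_not

end Pool.Agent.Results.MP_f5d5f4_nt.EveryFibre
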