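import Pool.Agent.TH894.NJ7

/-!
# Pairs from two one-parameter families at integers with few changed digits: no congruences, over any number field of small degree

Let `E_t : y² = x³ + A(t)x + B(t)` be a one-parameter family over `ℚ` with an `I₁` fibre (`4A³ + 27B²` has an irreducible factor
of multiplicity one) and `F_s : y² = x³ + A'(s)x + B'(s)` any one-parameter family of elliptic curves (`F = E` is allowed).
Take any integers `N`, `N'` with `K`, `K'` digits in bases `b`, `b'`, prescribe for every position a new digit, choose `r`, `r'`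
positions and put the new digits there, which gives the numbers `t` and `s`.  For all but a proportion `ε` of the choices `E_t` and
`F_s` are elliptic curves, `E_t[n]` and `F_s[n]` are not isomorphic as Galois modules for any `n ≥ 2`, and for **all** number fields
`L` they are not even isomorphic as modules over the Galois group of `L`, if `n` has a prime factor `l ≥ 3`, `l > [L : ℚ]`.

Proof.  Let the prime `q ≥ 5`, `q ≠ l`, divide `4A(t)³ + 27B(t)²` exactly once and not `4A'(s)³ + 27B'(s)²`.  The inertia group at `q`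
acts trivially on `F_s[l]`.  For every `τ` in the inertia group and every `P ∈ E_t[l]` the point `τP - P` has nonsingular
reduction and is fixed by the inertia group (local computations of the libraries `W275/FM` and `W275/FML`); so the inertia group acts
by unipotent automorphisms on `E_t[l]`, and not trivially, since otherwise all points of `E_t[l]` would have nonsingular reduction and
their number would be at most `l`.  So some `σ` acts trivially on `F_s[l]` and has order `l` on `E_t[l]`, and the same holds for
a power `σ ^ j`, `0 < j < l`, which fixes `L`.  Two such primes `q` are found for almost all pairs of choices by Mertens' theorem for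
the roots of the factor of the discriminant (`Pool.Agent.H474R2.GE.mertens_rho`) and the second moment over the choices.
-/

set_option autoImplicit false

namespace Pool.Agent.Results.MP_f5d5f4_nt.FewDigitFamilies

open Finset Polynomial
open scoped Classical

/-- The curve `y² = x³ + Ax + B` over `ℚ`. -/
def curve (A B : ℤ) : WeierstrassCurve ℚ := ⟨0, 0, 0, A, B⟩

/-- The group of its points over the algebraic closure of `ℚ`. -/
abbrev Points (A B : ℤ) : Type := ((curve A B).baseChange (AlgebraicClosure ℚ)).toAffine.Point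

/-- The action of an automorphism `σ` of the algebraic closure on the points. -/
noncomputable def galois (A B : ℤ) (σ : AlgebraicClosure ℚ ≃ₐ[ℚ] AlgebraicClosure ℚ) :
    Points A B →+ Points A B :=
  WeierstrassCurve.Affine.Point.map
    (σ : AlgebraicClosure ℚ →ₐ[ℚ] AlgebraicClosure ℚ)

/-- The `n`-torsion of `y² = x³ + Ax + B` and that of `y² = x³ + A'x + B'` are isomorphic as modules over the Galois group of the
field `L`: some map between the groups of points restricts to a bijective additive map of the `n`-torsion which commutes with all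
automorphisms of the algebraic closure which fix `L`. -/
def CongruentOver (L : IntermediateField ℚ (AlgebraicClosure ℚ)) (n : ℕ) (A B A' B' : ℤ) : Prop :=
  ∃ f : Points A B → Points A' B', (∀ P Q, n • P = 0 → n • Q = 0 → f (P + Q) = f P + f Q) ∧
    Set.BijOn f {P | n • P = 0} {Q | n • Q = 0} ∧
    ∀ σ ∈ L.fixingSubgroup, ∀ P : Points A B, n • P = 0 → f (galois A B σ P) = galois A' B' σ (f P)

/-- `y² = x³ + Ax + B` and `y² = x³ + A'x + B'` are elliptic curves, their `n`-torsion is not isomorphic over `ℚ` for any
`n ≥ 2`, and it is not isomorphic over any number field `L`, if `n` has a prime factor `l ≥ 3`, `l > [L : ℚ]`. -/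
def NoCongruence (A B A' B' : ℤ) : Prop :=
  4 * A ^ 3 + 27 * B ^ 2 ≠ 0 ∧ 4 * A' ^ 3 + 27 * B' ^ 2 ≠ 0 ∧
    (∀ n : ℕ, 2 ≤ n → ¬ CongruentOver ⊥ n A B A' B') ∧
    ∀ L : IntermediateField ℚ (AlgebraicClosure ℚ), FiniteDimensional ℚ L → ∀ l : ℕ, l.Prime → 3 ≤ l → Module.finrank ℚ L < l →
      ∀ n : ℕ, l ∣ n → ¬ CongruentOver L n A B A' B'

/-- The digit number `i` (counted from the right, beginning with `0`) of `n` in base `b`. -/
def digit (b i n : ℕ) : ℕ := n / b ^ i % b

/-- The number which arises from the number `N` with at most `K` digits in base `b`, if for every `i ∈ S`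
the digit number `i` is replaced by `f i`. -/
def change (b K N : ℕ) (f : ℕ → ℕ) (S : Finset ℕ) : ℕ :=
  ∑ i ∈ range K, (if i ∈ S then f i else digit b i N) * b ^ i

/-- Two primes suffice. -/
lemma no_congruence {A B A' B' : ℤ} (h : Pool.Agent.TH894.NJ.Two2 A B A' B') : NoCongruence A B A' B' := by
  obtain ⟨q₁, q₂, hlt, x1, x2, d1, d2⟩ := h
  have h0 : Pool.Agent.W275.FM.dsc A B ≠ 0 := by
    intro h0
    apply x1.2.2.2
    rw [h0]
    exact dvd_zero _
  have h0' : Pool.Agent.W275.FM.dsc A' B' ≠ 0 := by
    intro h0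
    apply d1
    rw [h0]
    exact dvd_zero _
  refine ⟨h0, h0', ?_, ?_⟩
  · rintro n hn ⟨f, h1, h2, h3⟩
    have hT : Pool.Agent.W275.FM.TorIso n A B A' B' :=
      ⟨f, h1, h2, fun σ P hP => h3 σ (by rw [IntermediateField.fixingSubgroup_bot]; exact Subgroup.mem_top _) P hP⟩
    have hbad := Pool.Agent.TH4.FZ.key_bad x1 hn h0' hT
    exact d1 (hbad.2.2 _ _ (Pool.Agent.TH4.FZ.Mdl.self A' B'))
  · intro L hL l hl hl3 hlL n hln hC
    by_cases hq : q₁ = l
    · exact Pool.Agent.TH894.NJ.no_iso A B A' B' q₂ l n x2 d2 hl hl3 (by omega) hln L.fixingSubgroup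
        (fun σ => Pool.Agent.TH894.NJ.pigeon L l hlL σ) hC
    · exact Pool.Agent.TH894.NJ.no_iso A B A' B' q₁ l n x1 d1 hl hl3 hq hln L.fixingSubgroup
        (fun σ => Pool.Agent.TH894.NJ.pigeon L l hlL σ) hC

/-- **Pairs from two one-parameter families at integers with few changed digits.**  Let `A, B, P, A', B'` be integer polynomials,
`P` irreducible of positive degree, dividing `4A³ + 27B²` exactly once, and `4A'³ + 27B'² ≠ 0`.  For all bases `b, b' ≥ 2` and all
`ε > 0` there is `C` such that for all `r, r' ≥ C`, `K ≥ 2r`, `K' ≥ 2r'`, all `N`, `N'` with at most `K`, `K'` digits in base `b`,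
`b'` and all new digits `f`, `f'`: for all but a proportion `ε` of the choices of `r` of the `K` positions and `r'` of the `K'`
positions, if `t` and `s` are the numbers obtained by changing the digits of `N` and `N'` at the chosen positions, then
`E_t : y² = x³ + A(t)x + B(t)` and `F_s : y² = x³ + A'(s)x + B'(s)` are elliptic curves, `E_t[n]` and `F_s[n]` are not isomorphic
as Galois modules over `ℚ` for any `n ≥ 2`, and they are not isomorphic over any number field `L`, if `n` has a prime factor `l ≥ 3`,
`l > [L : ℚ]`. -/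
theorem result (A B P A' B' : ℤ[X]) (hP : Irreducible P) (hd : 0 < P.natDegree) (hPD : P ∣ 4 * A ^ 3 + 27 * B ^ 2)
    (hP2 : ¬ P ^ 2 ∣ 4 * A ^ 3 + 27 * B ^ 2) (hD' : 4 * A' ^ 3 + 27 * B' ^ 2 ≠ 0)
    (b b' : ℕ) (hb : 2 ≤ b) (hb' : 2 ≤ b') (ε : ℝ) (hε : 0 < ε) :
    ∃ C : ℕ, ∀ r K r' K' : ℕ, C ≤ r → C ≤ r' → 2 * r ≤ K → 2 * r' ≤ K' →
      ∀ N : ℕ, N < b ^ K → ∀ f : ℕ → ℕ, (∀ j, f j < b ∧ f j ≠ digit b j N) →
      ∀ N' : ℕ, N' < b' ^ K' → ∀ f' : ℕ → ℕ, (∀ j, f' j < b' ∧ f' j ≠ digit b' j N') →
        (((powersetCard r (range K) ×ˢ powersetCard r' (range K')).filter (fun S =>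
          ¬ NoCongruence (A.eval (change b K N f S.1 : ℤ)) (B.eval (change b K N f S.1 : ℤ))
            (A'.eval (change b' K' N' f' S.2 : ℤ)) (B'.eval (change b' K' N' f' S.2 : ℤ)))).card : ℝ) ≤
          ε * ((K.choose r : ℝ) * (K'.choose r' : ℝ)) := by
  obtain ⟨C, h⟩ := Pool.Agent.TH894.NJ.pairs_family b b' hb hb' A B P A' B' hP hd hPD hP2 hD' ε hε
  refine ⟨C, fun r K r' K' hr hr' hrK hrK' N hN f hf N' hN' f' hf' => ?_⟩
  refine le_trans ?_ (h r K r' K' hr hr' hrK hrK' N hN f hf N' hN' f' hf')
  apply Nat.cast_le.2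
  apply card_le_card
  intro S hS
  rw [mem_filter] at hS ⊢
  exact ⟨hS.1, fun hR => hS.2 (no_congruence hR)⟩

end Pool.Agent.Results.MP_f5d5f4_nt.FewDigitFamilies
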