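import Pool.Agent.TH894.NI3

/-!
# Almost no pair of elliptic curves, whose coefficients arise from arbitrary integers by changing few digits, is congruent
modulo any `n ≥ 2`

Let `b, b' ≥ 2` and `ε > 0`.  Take any four integers, prescribe for every position a new digit, choose at least `C(ε)` positions in
each of the four numbers and put the new digits there.  Then for all but a proportion `ε` of the choices the curves
`E : y² = x³ + Ax + B` and `E' : y² = x³ + A'x + B'` with the four new numbers as coefficients (or their images under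
linear functions) are elliptic curves, and for no `n ≥ 2` are `E[n]` and `E'[n]` isomorphic as Galois modules.

Proof.  By the two ramification theorems of the libraries `W275/FM` and `W275/FML` (in the form of `TH4/FZ/Lev`), every curve
congruent to `E` has bad reduction at the primes `q ≥ 5` which divide `4A³ + 27B²` exactly once.  For almost all choices there is
such a prime between `y` and `y ^ m`: second moment over the choices, Fourier expansion modulo `∏ q²`, where only frequencies with
denominators at most `y ^ (4 m)` contribute; the exponential sums over the choices at these frequencies are elementary symmetric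
functions of unimodular numbers and at most `exp (- c' r)` if a few primes are excluded.  For each such `E` and `q` the same bound
gives that `q` divides `4A'³ + 27B'²` for a proportion at most `4 / q` of the choices for `E'` only.
-/

set_option autoImplicit false

namespace Pool.Agent.Results.MP_f5d5f4_nt.FewDigitPairs

open Finset
open scoped Classical

/-- The curve `y² = x³ + Ax + B` over `ℚ`. -/
def curve (A B : ℤ) : WeierstrassCurve ℚ := ⟨0, 0, 0, A, B⟩

/-- The group of its points over the algebraic closure of `ℚ`. -/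
abbrev Points (A B : ℤ) : Type := ((curve A B).baseChange (AlgebraicClosure ℚ)).toAffine.Point

/-- The action of an automorphism `σ` of the algebraic closure on the points. -/
noncomputable def galois (A B : ℤ) (σ : AlgebraicClosure ℚ ≃ₐ[ℚ] AlgebraicClosure ℚ) :
    Points A B →+ Points A B :=
  WeierstrassCurve.Affine.Point.map
    (σ : AlgebraicClosure ℚ →ₐ[ℚ] AlgebraicClosure ℚ)

/-- The `n`-torsion of `y² = x³ + Ax + B` and that of `y² = x³ + A'x + B'` are isomorphic as Galois
modules: some map between the groups of points restricts to a bijective additive map of the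
`n`-torsion which commutes with the Galois group. -/
def Congruent (n : ℕ) (A B A' B' : ℤ) : Prop :=
  ∃ f : Points A B → Points A' B', (∀ P Q, n • P = 0 → n • Q = 0 → f (P + Q) = f P + f Q) ∧
    Set.BijOn f {P | n • P = 0} {Q | n • Q = 0} ∧
    ∀ (σ : AlgebraicClosure ℚ ≃ₐ[ℚ] AlgebraicClosure ℚ) (P : Points A B), n • P = 0 →
      f (galois A B σ P) = galois A' B' σ (f P)

/-- The discriminant, up to the factor `-16`. -/
def disc (A B : ℤ) : ℤ := 4 * A ^ 3 + 27 * B ^ 2

/-- Both equations define elliptic curves, and these are not congruent modulo any `n ≥ 2`. -/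
def NoCongruence (A B A' B' : ℤ) : Prop :=
  disc A B ≠ 0 ∧ disc A' B' ≠ 0 ∧ ∀ n : ℕ, 2 ≤ n → ¬ Congruent n A B A' B'

/-- The digit number `i` (counted from the right, beginning with `0`) of `n` in base `b`. -/
def digit (b i n : ℕ) : ℕ := n / b ^ i % b

/-- The number which arises from the number `N` with at most `K` digits in base `b`, if for every `i ∈ S`
the digit number `i` is replaced by `f i`. -/
def change (b K N : ℕ) (f : ℕ → ℕ) (S : Finset ℕ) : ℕ :=
  ∑ i ∈ range K, (if i ∈ S then f i else digit b i N) * b ^ i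

/-- The initial data: a number `N`, the number `K` of its digits, the new digits `f`, the number `r` of changes. -/
structure Data where
  K : ℕ
  r : ℕ
  N : ℕ
  f : ℕ → ℕ

/-- `N` has at most `K` digits, `2 r ≤ K`, the prescribed new digits are different from the old ones, `r ≥ R`. -/
def Data.Ok (b : ℕ) (R : ℝ) (D : Data) : Prop :=
  2 * D.r ≤ D.K ∧ D.N < b ^ D.K ∧ (∀ j, D.f j < b ∧ D.f j ≠ digit b j D.N) ∧ R ≤ D.r

/-- The choices of `r` of the `K` positions. -/
def Data.choices (D : Data) : Finset (Finset ℕ) := powersetCard D.r (range D.K)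

/-- The number after the changes at the positions in `S`. -/
def Data.value (b : ℕ) (D : Data) (S : Finset ℕ) : ℕ := change b D.K D.N D.f S

/-- The number of the quadruples of choices for which the values (in base `b` for the first two, in base `b'` for the other two
numbers) do not have the property `E`. -/
noncomputable def exceptions (b b' : ℕ) (D₁ D₂ D₃ D₄ : Data) (E : ℕ → ℕ → ℕ → ℕ → Prop) : ℕ :=
  (((D₁.choices ×ˢ D₂.choices) ×ˢ (D₃.choices ×ˢ D₄.choices)).filter
    (fun S => ¬ E (D₁.value b S.1.1) (D₂.value b S.1.2) (D₃.value b' S.2.1) (D₄.value b' S.2.2))).card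

lemma choices_card (D : Data) : (D.choices.card : ℝ) = ((D.K).choose D.r : ℝ) := by
  unfold Data.choices
  rw [card_powersetCard, card_range]

/-- **No congruences between curves with few changed digits.**  For all bases `b, b' ≥ 2` and all `ε > 0` there is `C` such that for
all `H ≥ 2`, all linear functions `un + u₀`, `vn + v₀`, `u'n + u₀'`, `v'n + v₀'` with `0 < |u|, |v|, |u'|, |v'| ≤ H` and all data
`D₁`, `D₂` in base `b` and `D₃`, `D₄` in base `b'` with at least `C log H` changes: for all but a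
proportion `ε` of the choices of the positions, the curves `y² = x³ + (u n₁ + u₀) x + (v n₂ + v₀)` and
`y² = x³ + (u' n₃ + u₀') x + (v' n₄ + v₀')`, where the `nᵢ` arise from the given numbers by the changes at the chosen
positions, are elliptic curves which are not congruent modulo any `n ≥ 2`. -/
theorem result (b b' : ℕ) (hb : 2 ≤ b) (hb' : 2 ≤ b') (ε : ℝ) (hε : 0 < ε) : ∃ C : ℝ, 0 < C ∧ ∀ H : ℕ, 2 ≤ H →
    ∀ u v u₀ v₀ u' v' u₀' v₀' : ℤ, u ≠ 0 → v ≠ 0 → |u| ≤ H → |v| ≤ H → u' ≠ 0 → v' ≠ 0 → |u'| ≤ H → |v'| ≤ H →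
    ∀ D₁ D₂ D₃ D₄ : Data, D₁.Ok b (C * Real.log H) → D₂.Ok b (C * Real.log H) →
      D₃.Ok b' (C * Real.log H) → D₄.Ok b' (C * Real.log H) →
      (exceptions b b' D₁ D₂ D₃ D₄ (fun n₁ n₂ n₃ n₄ =>
        NoCongruence (u * n₁ + u₀) (v * n₂ + v₀) (u' * n₃ + u₀') (v' * n₄ + v₀')) : ℝ) ≤
        ε * (((D₁.choices.card : ℝ) * D₂.choices.card) * ((D₃.choices.card : ℝ) * D₄.choices.card)) := by
  obtain ⟨c, hc, y₀, h⟩ := Pool.Agent.TH894.NI.pairs_few4 b b' hb hb' ε hε
  have hl2 : 0 < Real.log 2 := Real.log_pos (by norm_num)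
  obtain ⟨W, hW⟩ : ∃ W : ℝ, W = (1 + Real.log (y₀ + 1) / Real.log 2) / c := ⟨_, rfl⟩
  have hl0 : 0 ≤ Real.log ((y₀ : ℝ) + 1) := Real.log_nonneg (by
    have : (0 : ℝ) ≤ y₀ := Nat.cast_nonneg _
    linarith)
  have hW0 : 0 < W := by rw [hW]; positivity
  refine ⟨W, hW0, fun H hH u v u₀ v₀ u' v' u₀' v₀' hu hv huH hvH hu' hv' huH' hvH' D₁ D₂ D₃ D₄ h₁ h₂ h₃ h₄ => ?_⟩
  have hHr : (2 : ℝ) ≤ H := by exact_mod_cast hH
  have hlH : Real.log 2 ≤ Real.log H := Real.log_le_log (by norm_num) hHr
  -- the parameter `y`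
  obtain ⟨y, hy⟩ : ∃ y, y = (y₀ + 1) * H := ⟨_, rfl⟩
  have hyH : H ≤ y := by rw [hy]; exact Nat.le_mul_of_pos_left H (by omega)
  have hyy₀ : y₀ ≤ y := by
    rw [hy]
    have : (y₀ + 1) * 1 ≤ (y₀ + 1) * H := Nat.mul_le_mul_left _ (by omega)
    omega
  have hly : Real.log y ≤ c * (W * Real.log H) := by
    rw [hy]
    push_cast
    rw [Real.log_mul (by positivity) (by positivity)]
    have e1 : c * (W * Real.log H) = Real.log H + Real.log (y₀ + 1) / Real.log 2 * Real.log H := by
      rw [hW]
      field_simp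
    rw [e1]
    have e2 : Real.log ((y₀ : ℝ) + 1) ≤ Real.log (y₀ + 1) / Real.log 2 * Real.log H := by
      rw [div_mul_eq_mul_div, le_div_iff₀ hl2]
      exact mul_le_mul_of_nonneg_left hlH hl0
    linarith
  have hr : ∀ r : ℕ, W * Real.log H ≤ r → Real.log y ≤ c * r := by
    intro r hr
    exact hly.trans (mul_le_mul_of_nonneg_left hr hc.le)
  have huy : ∀ w : ℤ, |w| ≤ H → |w| ≤ y := fun w hw => hw.trans (by exact_mod_cast hyH)
  have h5 := h y hyy₀ u v u₀ v₀ u' v' u₀' v₀' hu hv (huy u huH) (huy v hvH) hu' hv' (huy u' huH') (huy v' hvH')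
    ![D₁.r, D₂.r] ![D₁.K, D₂.K]
    (by intro i; fin_cases i; exacts [h₁.1, h₂.1]) (by intro i; fin_cases i; exacts [hr _ h₁.2.2.2, hr _ h₂.2.2.2])
    ![D₁.N, D₂.N] (by intro i; fin_cases i; exacts [h₁.2.1, h₂.2.1]) ![D₁.f, D₂.f]
    (by intro i j; fin_cases i; exacts [h₁.2.2.1 j, h₂.2.2.1 j])
    ![D₃.r, D₄.r] ![D₃.K, D₄.K]
    (by intro i; fin_cases i; exacts [h₃.1, h₄.1]) (by intro i; fin_cases i; exacts [hr _ h₃.2.2.2, hr _ h₄.2.2.2])
    ![D₃.N, D₄.N] (by intro i; fin_cases i; exacts [h₃.2.1, h₄.2.1]) ![D₃.f, D₄.f]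
    (by intro i j; fin_cases i; exacts [h₃.2.2.1 j, h₄.2.2.1 j])
  rw [Fin.prod_univ_two, Fin.prod_univ_two] at h5
  rw [choices_card, choices_card, choices_card, choices_card]
  refine le_trans ?_ h5
  unfold exceptions
  apply Nat.cast_le.2
  refine card_le_card_of_injOn (fun w => (![w.1.1, w.1.2], ![w.2.1, w.2.2])) ?_ ?_
  · rintro ⟨⟨S₁, S₂⟩, S₃, S₄⟩ hS
    rw [mem_coe, mem_filter, mem_product, mem_product, mem_product] at hS
    rw [mem_coe, mem_filter, mem_product, Fintype.mem_piFinset, Fintype.mem_piFinset]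
    refine ⟨⟨?_, ?_⟩, ?_⟩
    · intro i
      fin_cases i
      exacts [hS.1.1.1, hS.1.1.2]
    · intro i
      fin_cases i
      exacts [hS.1.2.1, hS.1.2.2]
    · intro hR
      apply hS.2
      exact hR
  · rintro ⟨⟨S₁, S₂⟩, S₃, S₄⟩ _ ⟨⟨S₁', S₂'⟩, S₃', S₄'⟩ _ hSS
    have k1 : (![S₁, S₂] : Fin 2 → Finset ℕ) = ![S₁', S₂'] := congrArg Prod.fst hSS
    have k2 : (![S₃, S₄] : Fin 2 → Finset ℕ) = ![S₃', S₄'] := congrArg Prod.snd hSS
    have e1 : S₁ = S₁' := congrFun k1 0
    have e2 : S₂ = S₂' := congrFun k1 1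
    have e3 : S₃ = S₃' := congrFun k2 0
    have e4 : S₄ = S₄' := congrFun k2 1
    rw [e1, e2, e3, e4]

end Pool.Agent.Results.MP_f5d5f4_nt.FewDigitPairs
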