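import Pool.Agent.TH4.FZ.Two

/-!
# MP_f5d5f4_nt: no congruences, modulo any `n ≥ 2`, between 100% of the pairs of members of two
one-parameter families

Let `K` be a number field (for example `ℚ`), let `E_t : y² = x³ + A(t)x + B(t)` and
`F_s : y² = x³ + A₂(s)x + B₂(s)` be one-parameter families of elliptic curves over `K`, where
`D(t) = 4A(t)³ + 27B(t)²` has an irreducible factor over `K` of multiplicity one, that is, the elliptic
surface `E` has a fibre of type `I₁`; the second family is arbitrary (its discriminant is not the zero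
polynomial).  Then for 100% of the pairs of parameters `(t, s)` the Galois modules `E_t[n]` and
`F_s[n]` are not isomorphic, for all `n ≥ 2` at the same time.  The parameters are
`t = c + ∑ xᵢωᵢ` and `s = c' + ∑ xᵢω'ᵢ`, where the linear forms are not proportional and `x` runs
through the integer vectors in a box; for example `t` and `s` run through independent intervals, of
any ratio of lengths, or through the integers of `K`.

Proof.  Let `L` be the field of a root of the simple factor.  For a rational prime `q` with a prime ideal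
of degree one in `L`, let `𝔮` be the prime ideal of `K` below; for a proportion at least `1/(4q)` of the
classes of `x` modulo `q²` the ideal `𝔮` divides `D(t)` exactly once and `F_s` has good reduction at `𝔮`.
The sum of the `1/q` diverges, so the second moment method gives two such primes for 100% of the `x`.
If `q` does not divide the smallest prime factor `l` of `n`, inertia at `𝔮` acts trivially on `F_s[l]` but
not on `E_t[l]` (the ramification theorem of the library `W275/FMK`).
-/

set_option autoImplicit false

open Filter Topology NumberField Polynomial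

namespace Pool.Agent.Results.MP_f5d5f4_nt.PairsInFamilies

section
variable {K : Type} [Field K] [NumberField K]

/-- The curve `y² = x³ + Ax + B` over `K`, `A`, `B` integers of `K`. -/
def curve (A B : 𝓞 K) : WeierstrassCurve K := ⟨0, 0, 0, (A : K), (B : K)⟩

/-- The group of its points over the algebraic closure of `K`. -/
abbrev Points (A B : 𝓞 K) : Type := ((curve A B).baseChange (AlgebraicClosure K)).toAffine.Point

open scoped Classical in
/-- The action of a `K`-automorphism `σ` of the algebraic closure on the points. -/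
noncomputable def galois (A B : 𝓞 K) (σ : AlgebraicClosure K ≃ₐ[K] AlgebraicClosure K) :
    Points A B →+ Points A B :=
  WeierstrassCurve.Affine.Point.map
    (σ : AlgebraicClosure K →ₐ[K] AlgebraicClosure K)

open scoped Classical in
/-- The `n`-torsion of `y² = x³ + Ax + B` and that of `y² = x³ + A'x + B'` are isomorphic as Galois
modules: some map between the groups of points restricts to a bijective additive map of the
`n`-torsion which commutes with the Galois group of `K`. -/
def Congruent (n : ℕ) (A B A' B' : 𝓞 K) : Prop :=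
  ∃ f : Points A B → Points A' B', (∀ P Q, n • P = 0 → n • Q = 0 → f (P + Q) = f P + f Q) ∧
    Set.BijOn f {P | n • P = 0} {Q | n • Q = 0} ∧
    ∀ (σ : AlgebraicClosure K ≃ₐ[K] AlgebraicClosure K) (P : Points A B), n • P = 0 →
      f (galois A B σ P) = galois A' B' σ (f P)

/-- The discriminant, up to the factor `-16`. -/
def disc (A B : 𝓞 K) : 𝓞 K := 4 * A ^ 3 + 27 * B ^ 2

/-- The discriminant of a family, a polynomial over `K` (up to the factor `-16`). -/
noncomputable def famDisc (A B : (𝓞 K)[X]) : K[X] :=
  (4 * A ^ 3 + 27 * B ^ 2).map (algebraMap (𝓞 K) K)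

/-- The parameter `t = c + x₁ω₁ + ... + x_dω_d`. -/
def param {d : ℕ} (c : 𝓞 K) (ω : Fin d → 𝓞 K) (x : Fin d → ℤ) : 𝓞 K :=
  c + ∑ i, (x i : 𝓞 K) * ω i

/-- `E_t : y² = x³ + A(t)x + B(t)` and `F_s : y² = x³ + A₂(s)x + B₂(s)` are elliptic curves without
congruences: `E_t[n]` and `F_s[n]` are not isomorphic for any `n ≥ 2`. -/
def NoCongruence (A B A₂ B₂ : (𝓞 K)[X]) (t s : 𝓞 K) : Prop :=
  disc (A.eval t) (B.eval t) ≠ 0 ∧ disc (A₂.eval s) (B₂.eval s) ≠ 0 ∧
    ∀ n : ℕ, 2 ≤ n → ¬ Congruent n (A.eval t) (B.eval t) (A₂.eval s) (B₂.eval s)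

end

/-- The integer vectors `x` with `|xᵢ| ≤ Lᵢ`. -/
def Box {d : ℕ} (L : Fin d → ℕ) : Set (Fin d → ℤ) := {x | ∀ i, |x i| ≤ (L i : ℤ)}

/-- **No congruences between 100% of the pairs of members of two one-parameter families.**  Let the
polynomial `4A³ + 27B²` over `K` be divisible exactly once by the irreducible polynomial `P`, let
`4A₂³ + 27B₂²` not be the zero polynomial, and let the vectors `ω`, `ω'` not be proportional.  The
proportion of the `x` in the box of side lengths `L` such that `t = c + ∑ xᵢωᵢ` and
`s = c' + ∑ xᵢω'ᵢ` satisfy `NoCongruence A B A₂ B₂ t s` tends to `1` as all the side lengths tend to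
infinity. -/
theorem result (K : Type) [Field K] [NumberField K] (A B A₂ B₂ : (𝓞 K)[X]) (P : K[X])
    (hP : Irreducible P) (h₁ : P ∣ famDisc A B) (h₂ : ¬ P ^ 2 ∣ famDisc A B)
    (h₃ : famDisc A₂ B₂ ≠ 0) (d : ℕ) (c c' : 𝓞 K) (ω ω' : Fin d → 𝓞 K)
    (hω : ∃ i j, ω i * ω' j ≠ ω j * ω' i) :
    Tendsto (fun L : Fin d → ℕ =>
      (({x | x ∈ Box L ∧ NoCongruence A B A₂ B₂ (param c ω x) (param c' ω' x)} :
        Set (Fin d → ℤ)).ncard : ℝ) / ((Box L).ncard : ℝ)) atTop (𝓝 1) := by
  obtain ⟨i, j, hij⟩ := hω
  refine Pool.Agent.TH4.FZ.lim_one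
    {x : Fin d → ℤ | NoCongruence A B A₂ B₂ (param c ω x) (param c' ω' x)}
    (fun ε hε => Pool.Agent.TH4.FZ.fam2 A B A₂ B₂ P hP h₁ h₂ ?_ c c' ω ω' i j hij ε hε)
  intro h
  apply h₃
  have h' : 4 * A₂ ^ 3 + 27 * B₂ ^ 2 = 0 := h
  unfold famDisc
  rw [h', Polynomial.map_zero]

end Pool.Agent.Results.MP_f5d5f4_nt.PairsInFamilies
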